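import Mathlib

/-!
# Specht multiplicities of symmetric real varieties need not be eventually polynomial

We disprove the polynomial growth conjecture for the multiplicities of Specht modules in the
cohomology of the symmetric real varieties `V_n(I)`, `I` a finitely generated ideal of the ring
of symmetric functions.  With `f = N_6 - 2 N_4 + N_2` and `I = (f, N_1)` the multiplicity of the
trivial module in degree `0` is `⌊n/2⌋ + 1`.
-/

noncomputable section

namespace Pool.Agent.Results.MP_356e41_ag.NotEventuallyPolynomial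

open Equiv

/-! ## Symmetric functions -/

/-- The substitution `X_{n+1} := 0`, from polynomials in `n+1` variables to polynomials in `n`
variables. -/
def lastZero (n : ℕ) : MvPolynomial (Fin (n + 1)) ℝ →ₐ[ℝ] MvPolynomial (Fin n) ℝ :=
  MvPolynomial.aeval (fun i : Fin (n + 1) =>
    if h : (i : ℕ) < n then (MvPolynomial.X ⟨i, h⟩ : MvPolynomial (Fin n) ℝ) else 0)

/-- A family `(f_n)_n` of polynomials, `f_n` in `n` variables, is a symmetric function if it is an
element of the inverse limit, in graded rings, of the rings of symmetric polynomials: every `f_n`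
is symmetric, `f_{n+1}(X_1, …, X_n, 0) = f_n`, and the degrees are bounded. -/
def IsSymFun (f : ∀ n : ℕ, MvPolynomial (Fin n) ℝ) : Prop :=
  (∀ n, (f n).IsSymmetric) ∧ (∀ n, lastZero n (f (n + 1)) = f n) ∧
    ∃ D : ℕ, ∀ n, (f n).totalDegree ≤ D

/-- The set `Λ` of symmetric functions over `ℝ`; `φ_n` sends `f` to its `n`-th member. -/
def SymFun : Type := {f : ∀ n : ℕ, MvPolynomial (Fin n) ℝ // IsSymFun f}

/-- The real variety `V_n(I) ⊆ ℝ^n` of the ideal `I = (f_1, …, f_k)` of `Λ`. -/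
def V {k : ℕ} (f : Fin k → SymFun) (n : ℕ) : Set (Fin n → ℝ) :=
  {x | ∀ j, MvPolynomial.eval x ((f j).1 n) = 0}

lemma V_perm {k : ℕ} (f : Fin k → SymFun) (n : ℕ) (σ : Perm (Fin n)) (x : Fin n → ℝ)
    (hx : x ∈ V f n) : (fun i => x (σ⁻¹ i)) ∈ V f n := by
  intro j
  have h1 : ((f j).1 n).IsSymmetric := (f j).2.1 n
  have h2 := hx j
  have h3 : MvPolynomial.rename (σ⁻¹ : Perm (Fin n)) ((f j).1 n) = (f j).1 n := h1 σ⁻¹
  rw [← h3, MvPolynomial.eval_rename] at h2
  exact h2

lemma continuous_perm {k : ℕ} (f : Fin k → SymFun) (n : ℕ) (σ : Perm (Fin n)) :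
    Continuous (fun x : V f n =>
      (⟨fun i => (x : Fin n → ℝ) (σ⁻¹ i), V_perm f n σ x.1 x.2⟩ : V f n)) := by
  apply Continuous.subtype_mk
  exact continuous_pi fun i => (continuous_apply _).comp continuous_subtype_val

/-- Permutation of the coordinates: `σ` sends `x` to the point with `i`-th coordinate
`x (σ⁻¹ i)`, as a continuous self-map of `V_n(I)`. -/
def permMap {k : ℕ} (f : Fin k → SymFun) (n : ℕ) (σ : Perm (Fin n)) : C(V f n, V f n) :=
  ⟨fun x => ⟨fun i => (x : Fin n → ℝ) (σ⁻¹ i), V_perm f n σ x.1 x.2⟩, continuous_perm f n σ⟩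

/-! ## Singular cohomology with rational coefficients -/

section Cohomology

variable (X Y : Type) [TopologicalSpace X] [TopologicalSpace Y]

/-- Singular `p`-simplices of `X`. -/
abbrev Simplex (p : ℕ) : Type := C(stdSimplex ℝ (Fin (p + 1)), X)

/-- The inclusion of the `i`-th face of the standard `(p+1)`-simplex. -/
def face (p : ℕ) (i : Fin (p + 2)) :
    C(stdSimplex ℝ (Fin (p + 1)), stdSimplex ℝ (Fin (p + 2))) :=
  ⟨stdSimplex.map i.succAbove, stdSimplex.continuous_map _⟩

/-- The singular coboundary of a rational `p`-cochain. -/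
def cobFun (p : ℕ) (c : Simplex X p → ℚ) : Simplex X (p + 1) → ℚ :=
  fun s => ∑ i : Fin (p + 2), (-1) ^ (i : ℕ) * c (s.comp (face p i))

lemma cobFun_add (p : ℕ) (c d : Simplex X p → ℚ) :
    cobFun X p (c + d) = cobFun X p c + cobFun X p d := by
  ext s
  simp [cobFun, mul_add, Finset.sum_add_distrib]

lemma cobFun_smul (p : ℕ) (r : ℚ) (c : Simplex X p → ℚ) :
    cobFun X p (r • c) = r • cobFun X p c := by
  ext s
  simp only [cobFun, Pi.smul_apply, smul_eq_mul, Finset.mul_sum]
  exact Finset.sum_congr rfl fun i _ => by ring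

/-- The singular coboundary, from rational `p`-cochains to rational `(p+1)`-cochains, as a linear
map. -/
def coboundary (p : ℕ) : (Simplex X p → ℚ) →ₗ[ℚ] (Simplex X (p + 1) → ℚ) :=
  ⟨⟨cobFun X p, cobFun_add X p⟩, cobFun_smul X p⟩

/-- The coboundaries among the rational `p`-cochains. -/
def coboundaries : (p : ℕ) → Submodule ℚ (Simplex X p → ℚ)
  | 0 => ⊥
  | p + 1 => LinearMap.range (coboundary X p)

/-- The rational `p`-cocycles. -/
def cocycles (p : ℕ) : Submodule ℚ (Simplex X p → ℚ) := LinearMap.ker (coboundary X p)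

/-- The coboundaries as a subspace of the space of cocycles. -/
def cobIn (p : ℕ) : Submodule ℚ (cocycles X p) := (coboundaries X p).submoduleOf (cocycles X p)

/-- The singular cohomology `H^p(X; ℚ)`: cocycles modulo coboundaries. -/
def Coh (p : ℕ) : Type := cocycles X p ⧸ cobIn X p

instance instAddCommGroupCoh (p : ℕ) : AddCommGroup (Coh X p) :=
  Submodule.Quotient.addCommGroup (cobIn X p)

instance instModuleCoh (p : ℕ) : Module ℚ (Coh X p) := Submodule.Quotient.module (cobIn X p)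

variable {X Y}

/-- Pull-back of cochains along a continuous map. -/
def pull (f : C(X, Y)) (p : ℕ) : (Simplex Y p → ℚ) →ₗ[ℚ] (Simplex X p → ℚ) :=
  LinearMap.funLeft ℚ ℚ (fun s : Simplex X p => f.comp s)

lemma coboundary_pull (f : C(X, Y)) (p : ℕ) (c : Simplex Y p → ℚ) :
    coboundary X p (pull f p c) = pull f (p + 1) (coboundary Y p c) := rfl

lemma pull_mem_ker (f : C(X, Y)) (p : ℕ) (c : Simplex Y p → ℚ)
    (hc : c ∈ cocycles Y p) : pull f p c ∈ cocycles X p := by
  have h : coboundary Y p c = 0 := hc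
  change coboundary X p (pull f p c) = 0
  rw [coboundary_pull, h, map_zero]

lemma pull_mem_coboundaries (f : C(X, Y)) (p : ℕ) (c : Simplex Y p → ℚ)
    (hc : c ∈ coboundaries Y p) : pull f p c ∈ coboundaries X p := by
  cases p with
  | zero =>
    have : c = 0 := hc
    subst this
    exact Submodule.zero_mem _
  | succ p =>
    obtain ⟨b, rfl⟩ := hc
    exact ⟨pull f p b, rfl⟩

/-- Pull-back of cocycles. -/
def pullKer (f : C(X, Y)) (p : ℕ) : cocycles Y p →ₗ[ℚ] cocycles X p :=
  (pull f p).restrict (pull_mem_ker f p)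

lemma pullKer_mem (f : C(X, Y)) (p : ℕ) : cobIn Y p ≤ (cobIn X p).comap (pullKer f p) :=
  fun c hc => pull_mem_coboundaries f p c.1 hc

/-- The map induced on cohomology by a continuous map. -/
def cohMap (f : C(X, Y)) (p : ℕ) : Coh Y p →ₗ[ℚ] Coh X p :=
  Submodule.mapQ _ _ (pullKer f p) (pullKer_mem f p)

end Cohomology

/-- The action of the symmetric group on `H^p(V_n(I); ℚ)`: a permutation `σ` acts by the
pull-back along `σ⁻¹`. -/
def cohAct {k : ℕ} (f : Fin k → SymFun) (n p : ℕ) (σ : Perm (Fin n)) :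
    Coh (V f n) p →ₗ[ℚ] Coh (V f n) p :=
  cohMap (permMap f n σ⁻¹) p

/-! ## Specht modules -/

/-- The Young symmetrizer of a tableau, here a bijective filling `T` sending `i : Fin n` to the
cell that contains it: the sum of all products `g * h`, with `g` in the row group and `h` in the
column group, weighted by the sign of `h`. -/
def symmetrizer {n : ℕ} {μ : YoungDiagram} (T : Fin n ≃ μ.cells) :
    MonoidAlgebra ℚ (Perm (Fin n)) :=
  (∑ g : Perm (Fin n), if ∀ i, (T (g i)).1.1 = (T i).1.1 then MonoidAlgebra.single g 1 else 0) *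
  (∑ h : Perm (Fin n), if ∀ i, (T (h i)).1.2 = (T i).1.2 then
      MonoidAlgebra.single h ((Perm.sign h : ℤ) : ℚ) else 0)

/-- The Specht module of the tableau `T`: the left ideal of the group algebra generated by the
Young symmetrizer. -/
def specht {n : ℕ} {μ : YoungDiagram} (T : Fin n ≃ μ.cells) :
    Submodule ℚ (MonoidAlgebra ℚ (Perm (Fin n))) :=
  LinearMap.range (LinearMap.mulRight ℚ (symmetrizer T))

lemma specht_mem {n : ℕ} {μ : YoungDiagram} (T : Fin n ≃ μ.cells) (σ : Perm (Fin n))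
    (x : MonoidAlgebra ℚ (Perm (Fin n))) (hx : x ∈ specht T) :
    LinearMap.mulLeft ℚ (MonoidAlgebra.single σ 1) x ∈ specht T := by
  obtain ⟨y, rfl⟩ := hx
  exact ⟨MonoidAlgebra.single σ 1 * y, mul_assoc _ _ _⟩

/-- The symmetric group acts on the Specht module by left multiplication. -/
def spechtAct {n : ℕ} {μ : YoungDiagram} (T : Fin n ≃ μ.cells) (σ : Perm (Fin n)) :
    specht T →ₗ[ℚ] specht T :=
  (LinearMap.mulLeft ℚ (MonoidAlgebra.single σ 1)).restrict (specht_mem T σ)

/-- The space of linear maps `W₁ → W₂` that are equivariant for the actions `ρ₁`, `ρ₂` of `G`. -/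
def equivariantMaps {G W₁ W₂ : Type} [AddCommGroup W₁] [Module ℚ W₁]
    [AddCommGroup W₂] [Module ℚ W₂] (ρ₁ : G → W₁ →ₗ[ℚ] W₁) (ρ₂ : G → W₂ →ₗ[ℚ] W₂) :
    Submodule ℚ (W₁ →ₗ[ℚ] W₂) where
  carrier := {f | ∀ g v, f (ρ₁ g v) = ρ₂ g (f v)}
  add_mem' := fun hf hf' g v => by
    rw [LinearMap.add_apply, LinearMap.add_apply, map_add, hf g v, hf' g v]
  zero_mem' := fun g v => (map_zero (ρ₂ g)).symm
  smul_mem' := fun r f hf g v => by
    rw [LinearMap.smul_apply, LinearMap.smul_apply, map_smul, hf g v]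

/-- The dimension of the space of equivariant linear maps. -/
def homDim {G W₁ W₂ : Type} [AddCommGroup W₁] [Module ℚ W₁]
    [AddCommGroup W₂] [Module ℚ W₂] (ρ₁ : G → W₁ →ₗ[ℚ] W₁) (ρ₂ : G → W₂ →ₗ[ℚ] W₂) : ℕ :=
  Module.finrank ℚ (equivariantMaps ρ₁ ρ₂)

/-- The multiplicity of the Specht module `S^μ` in `H^p(V_n(I); ℚ)`, for `μ` a partition of `n`:
the dimension of the space of equivariant linear maps from `S^μ` to `H^p(V_n(I); ℚ)`
(`S^μ` is absolutely irreducible).  It is `0` if `μ` is not a partition of `n`. -/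
def mult {k : ℕ} (f : Fin k → SymFun) (p n : ℕ) (μ : YoungDiagram) : ℕ :=
  if h : μ.cells.card = n then
    homDim (spechtAct (Finset.equivFinOfCardEq h).symm) (cohAct f n p)
  else 0

/-- The cells of the padded partition. -/
def padCells (lam : YoungDiagram) (n : ℕ) : Finset (ℕ × ℕ) :=
  (Finset.range (n - lam.cells.card)).image (fun j => (0, j)) ∪
    lam.cells.image (fun c => (c.1 + 1, c.2))

lemma padCells_isLowerSet (lam : YoungDiagram) (n : ℕ)
    (hn : lam.rowLen 0 + lam.cells.card ≤ n) : IsLowerSet (padCells lam n : Set (ℕ × ℕ)) := by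
  rintro ⟨i, j⟩ ⟨i', j'⟩ hle hmem
  simp only [padCells, Finset.coe_union, Finset.coe_image, Set.mem_union, Set.mem_image,
    Finset.mem_coe, Finset.mem_range, Prod.mk.injEq, Prod.exists] at hmem ⊢
  obtain ⟨h1, h2⟩ : i' ≤ i ∧ j' ≤ j := hle
  rcases hmem with ⟨a, ha, h0, rfl⟩ | ⟨a, b, hab, rfl, rfl⟩
  · left
    exact ⟨j', by omega, by omega, rfl⟩
  · rcases Nat.eq_zero_or_pos i' with h0 | h0
    · left
      refine ⟨j', ?_, h0.symm, rfl⟩
      have h3 : (a, b) ∈ lam := hab
      have h4 : (0, b) ∈ lam := lam.up_left_mem (Nat.zero_le _) le_rfl h3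
      rw [YoungDiagram.mem_iff_lt_rowLen] at h4
      omega
    · right
      refine ⟨i' - 1, j', ?_, by omega, rfl⟩
      exact lam.up_left_mem (by omega) h2 hab

/-- The padded partition `{λ}_n = (n - |λ|, λ₁, λ₂, …)` of `n`, defined for `n ≥ λ₁ + |λ|`. -/
def pad (lam : YoungDiagram) (n : ℕ) (hn : lam.rowLen 0 + lam.cells.card ≤ n) : YoungDiagram :=
  ⟨padCells lam n, padCells_isLowerSet lam n hn⟩

/-! ## The example -/

lemma IsSymFun.add {f g : ∀ n : ℕ, MvPolynomial (Fin n) ℝ} (hf : IsSymFun f) (hg : IsSymFun g) :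
    IsSymFun (fun n => f n + g n) := by
  obtain ⟨hf1, hf2, D, hf3⟩ := hf
  obtain ⟨hg1, hg2, E, hg3⟩ := hg
  refine ⟨fun n => (hf1 n).add (hg1 n), fun n => ?_, max D E, fun n => ?_⟩
  · simp [hf2, hg2]
  · exact (MvPolynomial.totalDegree_add _ _).trans (max_le_max (hf3 n) (hg3 n))

lemma IsSymFun.smul {f : ∀ n : ℕ, MvPolynomial (Fin n) ℝ} (hf : IsSymFun f) (r : ℝ) :
    IsSymFun (fun n => r • f n) := by
  obtain ⟨hf1, hf2, D, hf3⟩ := hf
  refine ⟨fun n => (hf1 n).smul r, fun n => ?_, D, fun n => ?_⟩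
  · simp [hf2]
  · exact (MvPolynomial.totalDegree_smul_le _ _).trans (hf3 n)

lemma isSymFun_psum (l : ℕ) (hl : l ≠ 0) : IsSymFun (fun n => MvPolynomial.psum (Fin n) ℝ l) := by
  refine ⟨fun n => MvPolynomial.psum_isSymmetric _ _ _, fun n => ?_, l, fun n => ?_⟩
  · change lastZero n (∑ i, MvPolynomial.X i ^ l) = ∑ i, MvPolynomial.X i ^ l
    simp [lastZero, Fin.sum_univ_castSucc, hl]
  · change (∑ i : Fin n, (MvPolynomial.X i : MvPolynomial (Fin n) ℝ) ^ l).totalDegree ≤ l
    apply (MvPolynomial.totalDegree_finsetSum _ _).trans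
    apply Finset.sup_le
    intro i _
    exact (MvPolynomial.totalDegree_pow _ _).trans (by simp)

/-- The power sum `N_1`. -/
def g₁ : SymFun := ⟨_, isSymFun_psum 1 one_ne_zero⟩

/-- The symmetric function `N_6 - 2 N_4 + N_2`. -/
def g₂ : SymFun := ⟨_, ((isSymFun_psum 6 (by norm_num)).add
  ((isSymFun_psum 4 (by norm_num)).smul (-2))).add (isSymFun_psum 2 (by norm_num))⟩

/-- The generators `N_1` and `N_6 - 2 N_4 + N_2` of the ideal. -/
def F₀ : Fin 2 → SymFun := ![g₁, g₂]

lemma mem_V (n : ℕ) (x : Fin n → ℝ) :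
    x ∈ V F₀ n ↔ (∀ i, x i = 0 ∨ x i = 1 ∨ x i = -1) ∧ ∑ i, x i = 0 := by
  have key1 : MvPolynomial.eval x ((F₀ 0).1 n) = ∑ i, x i := by
    change MvPolynomial.eval x (∑ i, MvPolynomial.X i ^ 1) = _
    simp
  have key2 : MvPolynomial.eval x ((F₀ 1).1 n) = ∑ i, (x i * (x i ^ 2 - 1)) ^ 2 := by
    change MvPolynomial.eval x ((∑ i, MvPolynomial.X i ^ 6) + (-2 : ℝ) •
      (∑ i, MvPolynomial.X i ^ 4) + ∑ i, MvPolynomial.X i ^ 2) = _
    simp only [map_add, MvPolynomial.smul_eval, map_sum, map_pow, MvPolynomial.eval_X,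
      Finset.mul_sum, ← Finset.sum_add_distrib]
    exact Finset.sum_congr rfl fun i _ => by ring
  have key3 : x ∈ V F₀ n ↔ (∑ i, x i = 0) ∧ ∑ i, (x i * (x i ^ 2 - 1)) ^ 2 = 0 := by
    rw [← key1, ← key2]
    exact Fin.forall_fin_two
  rw [key3, and_comm]
  refine and_congr_left fun _ => ?_
  rw [Finset.sum_eq_zero_iff_of_nonneg (fun i _ => sq_nonneg _)]
  constructor
  · intro h1 i
    have h3 := h1 i (Finset.mem_univ i)
    have h4 : x i * (x i ^ 2 - 1) = 0 := by simpa using h3
    rcases mul_eq_zero.1 h4 with h5 | h5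
    · exact Or.inl h5
    · have h6 : (x i - 1) * (x i + 1) = 0 := by linear_combination h5
      rcases mul_eq_zero.1 h6 with h7 | h7
      · right; left; linarith
      · right; right; linarith
  · intro h1 i _
    rcases h1 i with h | h | h <;> rw [h] <;> norm_num

lemma finite_V (n : ℕ) : (V F₀ n).Finite := by
  apply Set.Finite.subset (Set.Finite.pi' (t := fun _ : Fin n => ({0, 1, -1} : Set ℝ))
    (fun _ => Set.toFinite _))
  intro x hx i
  have := ((mem_V n x).1 hx).1 i
  simpa using this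

instance (n : ℕ) : Finite (V F₀ n) := (finite_V n).to_subtype

instance (n : ℕ) : DiscreteTopology (V F₀ n) := inferInstance

/-! ### Degree zero cohomology of a discrete space -/

section Discrete

variable (X : Type) [TopologicalSpace X] [DiscreteTopology X]

instance (p : ℕ) : Nonempty (stdSimplex ℝ (Fin (p + 1))) := inferInstance

/-- a base point of the standard simplex -/
def pt (p : ℕ) : stdSimplex ℝ (Fin (p + 1)) := Classical.arbitrary _

lemma simplex_const (p : ℕ) (s : Simplex X p) (a b : stdSimplex ℝ (Fin (p + 1))) : s a = s b :=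
  PreconnectedSpace.constant inferInstance s.continuous

lemma coboundary_zero (c : Simplex X 0 → ℚ) : coboundary X 0 c = 0 := by
  ext s
  have h : s.comp (face 0 0) = s.comp (face 0 1) := by
    ext a
    exact simplex_const X 1 s _ _
  change ∑ i : Fin 2, (-1) ^ (i : ℕ) * c (s.comp (face 0 i)) = 0
  rw [Fin.sum_univ_two, h]
  simp

/-- functions on a discrete space are classes in degree zero cohomology -/
def ev : (X → ℚ) →ₗ[ℚ] Coh X 0 where
  toFun c := Submodule.Quotient.mk ⟨fun s => c (s (pt 0)), coboundary_zero X _⟩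
  map_add' _ _ := rfl
  map_smul' _ _ := rfl

lemma ev_injective : Function.Injective (ev X) := by
  rw [← LinearMap.ker_eq_bot, LinearMap.ker_eq_bot']
  intro c hc
  have h1 : (⟨fun s => c (s (pt 0)), coboundary_zero X _⟩ : cocycles X 0) ∈
      cobIn X 0 :=
    (Submodule.Quotient.mk_eq_zero _).1 hc
  have h2 : (fun s : Simplex X 0 => c (s (pt 0))) = 0 := h1
  ext x
  exact congrFun h2 (ContinuousMap.const _ x)

lemma ev_surjective : Function.Surjective (ev X) := by
  intro y
  obtain ⟨⟨c, hc⟩, rfl⟩ := Submodule.Quotient.mk_surjective _ y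
  refine ⟨fun x => c (ContinuousMap.const _ x), ?_⟩
  change Submodule.Quotient.mk _ = Submodule.Quotient.mk _
  congr 1
  apply Subtype.ext
  funext s
  change c _ = c s
  congr 1
  ext a
  exact simplex_const X 0 s _ _

end Discrete

lemma cohAct_ev (n : ℕ) (σ : Perm (Fin n)) (c : V F₀ n → ℚ) :
    cohAct F₀ n 0 σ (ev (V F₀ n) c) = ev (V F₀ n) (fun x => c (permMap F₀ n σ⁻¹ x)) := rfl

/-! ### Orbits of the symmetric group on the variety -/

/-- number of coordinates of `x` equal to `a` -/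
def cnt {n : ℕ} (x : Fin n → ℝ) (a : ℝ) : ℕ := Nat.card {i // x i = a}

lemma cnt_cast {n : ℕ} (x : Fin n → ℝ) (a : ℝ) :
    (cnt x a : ℝ) = ∑ i, if x i = a then (1 : ℝ) else 0 := by
  classical
  rw [cnt, Nat.card_eq_fintype_card, Fintype.card_subtype, Finset.sum_ite]
  simp

lemma cnt_neg_one {n : ℕ} (x : Fin n → ℝ) (hx : x ∈ V F₀ n) : cnt x (-1) = cnt x 1 := by
  obtain ⟨h1, h2⟩ := (mem_V n x).1 hx
  have h3 : (cnt x 1 : ℝ) - cnt x (-1) = ∑ i, x i := by
    rw [cnt_cast, cnt_cast, ← Finset.sum_sub_distrib]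
    apply Finset.sum_congr rfl
    intro i _
    rcases h1 i with h | h | h <;> rw [h] <;> norm_num
  rw [h2] at h3
  have : (cnt x 1 : ℝ) = cnt x (-1) := by linarith
  exact_mod_cast this.symm

lemma cnt_total {n : ℕ} (x : Fin n → ℝ) (hx : x ∈ V F₀ n) :
    cnt x 0 + cnt x 1 + cnt x (-1) = n := by
  obtain ⟨h1, h2⟩ := (mem_V n x).1 hx
  have h3 : (cnt x 0 : ℝ) + cnt x 1 + cnt x (-1) = ∑ i : Fin n, (1 : ℝ) := by
    rw [cnt_cast, cnt_cast, cnt_cast, ← Finset.sum_add_distrib, ← Finset.sum_add_distrib]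
    apply Finset.sum_congr rfl
    intro i _
    rcases h1 i with h | h | h <;> rw [h] <;> norm_num
  have h4 : ((cnt x 0 + cnt x 1 + cnt x (-1) : ℕ) : ℝ) = (n : ℕ) := by
    push_cast
    rw [h3]
    simp
  exact_mod_cast h4

lemma cnt_le {n : ℕ} (x : Fin n → ℝ) (hx : x ∈ V F₀ n) : cnt x 1 < n / 2 + 1 := by
  have h1 := cnt_neg_one x hx
  have h2 := cnt_total x hx
  omega

lemma cnt_perm {n : ℕ} (x : V F₀ n) (σ : Perm (Fin n)) (a : ℝ) :
    cnt (permMap F₀ n σ x : Fin n → ℝ) a = cnt (x : Fin n → ℝ) a := by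
  apply Nat.card_congr
  exact (σ⁻¹).subtypeEquiv (fun i => Iff.rfl)

lemma exists_perm {n : ℕ} (x y : V F₀ n) (h : cnt (x : Fin n → ℝ) 1 = cnt (y : Fin n → ℝ) 1) :
    ∃ σ : Perm (Fin n), permMap F₀ n σ x = y := by
  classical
  have key : ∀ a : ℝ, cnt (x : Fin n → ℝ) a = cnt (y : Fin n → ℝ) a := by
    intro a
    have hx1 := cnt_neg_one x.1 x.2
    have hy1 := cnt_neg_one y.1 y.2
    have hx2 := cnt_total x.1 x.2
    have hy2 := cnt_total y.1 y.2
    by_cases h0 : a = 0
    · subst h0; omega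
    by_cases h1 : a = 1
    · subst h1; exact h
    by_cases h2 : a = -1
    · subst h2; omega
    have aux : ∀ z : V F₀ n, cnt (z : Fin n → ℝ) a = 0 := by
      intro z
      rw [cnt, Nat.card_eq_zero]
      left
      constructor
      rintro ⟨i, hi⟩
      rcases ((mem_V n z.1).1 z.2).1 i with h | h | h
      · exact h0 (hi.symm.trans h)
      · exact h1 (hi.symm.trans h)
      · exact h2 (hi.symm.trans h)
    rw [aux, aux]
  have key2 : ∀ a : ℝ, Nonempty ({i // (y : Fin n → ℝ) i = a} ≃ {i // (x : Fin n → ℝ) i = a}) := by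
    intro a
    have := key a
    unfold cnt at this
    rw [Nat.card_eq_fintype_card, Nat.card_eq_fintype_card] at this
    exact Fintype.card_eq.1 this.symm
  let e := fun a => Classical.choice (key2 a)
  let τ : Perm (Fin n) := Equiv.ofFiberEquiv e
  refine ⟨τ⁻¹, ?_⟩
  apply Subtype.ext
  funext i
  change (x : Fin n → ℝ) ((τ⁻¹)⁻¹ i) = (y : Fin n → ℝ) i
  rw [inv_inv]
  exact Equiv.ofFiberEquiv_map e i

/-- the standard representative with `j` ones -/
def stdPt (n : ℕ) (j : Fin (n / 2 + 1)) : V F₀ n :=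
  ⟨fun i => if (i : ℕ) < j then 1 else if (i : ℕ) < 2 * j then -1 else 0, by
    rw [mem_V]
    constructor
    · intro i
      split_ifs <;> simp
    · have hj : 2 * (j : ℕ) ≤ n := by have := j.2; omega
      have h1 : ∀ i : Fin n, (if (i : ℕ) < j then (1 : ℝ) else if (i : ℕ) < 2 * j then -1 else 0) =
          (if (i : ℕ) < j then (2 : ℝ) else 0) - (if (i : ℕ) < 2 * j then 1 else 0) := by
        intro i
        by_cases h1 : (i : ℕ) < j
        · have h2 : (i : ℕ) < 2 * j := by omega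
          rw [if_pos h1, if_pos h1, if_pos h2]; norm_num
        · by_cases h2 : (i : ℕ) < 2 * j
          · rw [if_neg h1, if_neg h1, if_pos h2, if_pos h2]; norm_num
          · rw [if_neg h1, if_neg h1, if_neg h2, if_neg h2]; norm_num
      rw [Finset.sum_congr rfl fun i _ => h1 i, Finset.sum_sub_distrib,
        Fin.sum_univ_eq_sum_range (fun i => if i < (j : ℕ) then (2 : ℝ) else 0) n,
        Fin.sum_univ_eq_sum_range (fun i => if i < 2 * (j : ℕ) then (1 : ℝ) else 0) n,
        ← Finset.sum_filter, ← Finset.sum_filter]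
      have e1 : (Finset.range n).filter (fun i => i < (j : ℕ)) = Finset.range j := by
        ext i; simp; omega
      have e2 : (Finset.range n).filter (fun i => i < 2 * (j : ℕ)) = Finset.range (2 * j) := by
        ext i; simp; omega
      rw [e1, e2]
      simp
      ring⟩

lemma cnt_stdPt (n : ℕ) (j : Fin (n / 2 + 1)) : cnt (stdPt n j : Fin n → ℝ) 1 = j := by
  have hj : 2 * (j : ℕ) ≤ n := by have := j.2; omega
  have h1 : (cnt (stdPt n j : Fin n → ℝ) 1 : ℝ) = (j : ℕ) := by
    rw [cnt_cast]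
    have h1 : ∀ i : Fin n, (if (stdPt n j : Fin n → ℝ) i = 1 then (1 : ℝ) else 0) =
        (if (i : ℕ) < j then (1 : ℝ) else 0) := by
      intro i
      change (if (if (i : ℕ) < j then (1 : ℝ) else if (i : ℕ) < 2 * j then -1 else 0) = 1
        then (1 : ℝ) else 0) = _
      by_cases h1 : (i : ℕ) < j
      · simp [h1]
      · by_cases h2 : (i : ℕ) < 2 * j
        · simp only [h1, h2, if_true, if_false]; norm_num
        · simp only [h1, h2, if_false]; norm_num
    rw [Finset.sum_congr rfl fun i _ => h1 i,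
      Fin.sum_univ_eq_sum_range (fun i => if i < (j : ℕ) then (1 : ℝ) else 0) n,
      ← Finset.sum_filter]
    have e1 : (Finset.range n).filter (fun i => i < (j : ℕ)) = Finset.range j := by
      ext i; simp; omega
    rw [e1]
    simp
  exact_mod_cast h1

/-- invariant functions on the variety -/
def InvFun (n : ℕ) : Submodule ℚ (V F₀ n → ℚ) where
  carrier := {c | ∀ (σ : Perm (Fin n)) x, c (permMap F₀ n σ x) = c x}
  add_mem' := by
    intro a b ha hb σ x
    simp [ha σ x, hb σ x]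
  zero_mem' := by
    intro σ x
    rfl
  smul_mem' := by
    intro r a ha σ x
    simp [ha σ x]

/-- restriction of an invariant function to the standard points -/
def invEquiv (n : ℕ) : InvFun n ≃ₗ[ℚ] (Fin (n / 2 + 1) → ℚ) where
  toFun c := fun j => c.1 (stdPt n j)
  map_add' _ _ := rfl
  map_smul' _ _ := rfl
  invFun v := ⟨fun x => v ⟨cnt (x : Fin n → ℝ) 1, cnt_le x.1 x.2⟩, by
    intro σ x
    change v _ = v _
    congr 1
    apply Fin.ext
    exact cnt_perm x σ 1⟩
  left_inv c := by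
    apply Subtype.ext
    funext x
    change c.1 (stdPt n ⟨cnt (x : Fin n → ℝ) 1, cnt_le x.1 x.2⟩) = c.1 x
    obtain ⟨σ, hσ⟩ := exists_perm (stdPt n ⟨cnt (x : Fin n → ℝ) 1, cnt_le x.1 x.2⟩) x
      (cnt_stdPt n _)
    rw [← c.2 σ, hσ]
  right_inv v := by
    funext j
    change v _ = v _
    congr 1
    apply Fin.ext
    exact cnt_stdPt n j

lemma finrank_invFun (n : ℕ) : Module.finrank ℚ (InvFun n) = n / 2 + 1 := by
  rw [(invEquiv n).finrank_eq]
  simp

/-- invariants of a family of operators -/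
def invs {G W : Type} [AddCommGroup W] [Module ℚ W] (ρ : G → W →ₗ[ℚ] W) : Submodule ℚ W where
  carrier := {w | ∀ g, ρ g w = w}
  add_mem' := fun ha hb g => by rw [map_add, ha g, hb g]
  zero_mem' := fun g => map_zero _
  smul_mem' := fun r a ha g => by rw [map_smul, ha g]

/-- invariant functions are the invariants of degree zero cohomology -/
def evInv (n : ℕ) : InvFun n ≃ₗ[ℚ] invs (cohAct F₀ n 0) :=
  LinearEquiv.ofBijective
    (((ev (V F₀ n)).comp (InvFun n).subtype).codRestrict (invs (cohAct F₀ n 0)) (by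
      intro c σ
      change cohAct F₀ n 0 σ (ev (V F₀ n) c.1) = ev (V F₀ n) c.1
      rw [cohAct_ev]
      congr 1
      funext x
      exact c.2 _ x))
    ⟨by
      intro a b hab
      have h1 : ev (V F₀ n) a.1 = ev (V F₀ n) b.1 := congrArg Subtype.val hab
      exact Subtype.ext (ev_injective _ h1), by
      rintro ⟨y, hy⟩
      obtain ⟨c, rfl⟩ := ev_surjective (V F₀ n) y
      refine ⟨⟨c, ?_⟩, rfl⟩
      intro σ x
      have h1 := hy σ⁻¹
      rw [cohAct_ev, inv_inv] at h1
      exact congrFun (ev_injective _ h1) x⟩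

lemma finrank_invs (n : ℕ) : Module.finrank ℚ (invs (cohAct F₀ n 0)) = n / 2 + 1 := by
  rw [← (evInv n).finrank_eq, finrank_invFun]

/-! ### The Specht module of the one-row partition -/

/-- the norm element -/
def nrm (n : ℕ) : MonoidAlgebra ℚ (Perm (Fin n)) := ∑ g, MonoidAlgebra.single g 1

lemma of_mul_nrm (n : ℕ) (σ : Perm (Fin n)) : MonoidAlgebra.single σ 1 * nrm n = nrm n := by
  rw [nrm, Finset.mul_sum]
  simp only [MonoidAlgebra.single_mul_single, mul_one]
  exact Fintype.sum_bijective (fun g => σ * g) (Group.mulLeft_bijective σ) _ _ (fun _ => rfl)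

lemma symmetrizer_row (n : ℕ) (μ : YoungDiagram) (hμ : ∀ c ∈ μ.cells, c.1 = 0)
    (T : Fin n ≃ μ.cells) : symmetrizer T = nrm n := by
  classical
  unfold symmetrizer
  have h1 : ∀ g : Perm (Fin n), (∀ i, (T (g i)).1.1 = (T i).1.1) := by
    intro g i
    rw [hμ _ (T (g i)).2, hμ _ (T i).2]
  have h2 : ∀ h : Perm (Fin n), (∀ i, (T (h i)).1.2 = (T i).1.2) ↔ h = 1 := by
    intro h
    constructor
    · intro hh
      ext i
      have : T (h i) = T i := Subtype.ext (Prod.ext (h1 h i) (hh i))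
      rw [T.injective this]
      rfl
    · rintro rfl i
      rfl
  have h3 : (∑ h : Perm (Fin n), if ∀ i, (T (h i)).1.2 = (T i).1.2 then
      MonoidAlgebra.single h ((Perm.sign h : ℤ) : ℚ) else 0) =
      (1 : MonoidAlgebra ℚ (Perm (Fin n))) := by
    rw [Finset.sum_eq_single (1 : Perm (Fin n))]
    · rw [if_pos ((h2 1).2 rfl)]
      simp [MonoidAlgebra.one_def]
    · intro h _ hh
      rw [if_neg (fun h' => hh ((h2 h).1 h'))]
    · intro h
      exact absurd (Finset.mem_univ _) h
  rw [h3, mul_one, nrm]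
  exact Finset.sum_congr rfl fun g _ => if_pos (h1 g)

lemma mem_specht_row (n : ℕ) (μ : YoungDiagram) (hμ : ∀ c ∈ μ.cells, c.1 = 0)
    (T : Fin n ≃ μ.cells) (x : MonoidAlgebra ℚ (Perm (Fin n))) :
    x ∈ specht T ↔ ∃ r : ℚ, x = r • nrm n := by
  rw [specht, symmetrizer_row n μ hμ T]
  constructor
  · rintro ⟨y, rfl⟩
    change ∃ r : ℚ, y * nrm n = r • nrm n
    induction y using MonoidAlgebra.induction_on with
    | of g => exact ⟨1, by rw [MonoidAlgebra.of_apply, of_mul_nrm, one_smul]⟩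
    | add a b ha hb =>
      obtain ⟨r, hr⟩ := ha
      obtain ⟨s, hs⟩ := hb
      exact ⟨r + s, by rw [add_mul, hr, hs, add_smul]⟩
    | smul r a ha =>
      obtain ⟨s, hs⟩ := ha
      exact ⟨r * s, by rw [smul_mul_assoc, hs, smul_smul]⟩
  · rintro ⟨r, rfl⟩
    exact ⟨r • 1, by simp⟩

/-- the augmentation of the group algebra -/
def aug (n : ℕ) : MonoidAlgebra ℚ (Perm (Fin n)) →ₐ[ℚ] ℚ := MonoidAlgebra.lift ℚ ℚ _ 1

lemma aug_single_mul (n : ℕ) (σ : Perm (Fin n)) (x : MonoidAlgebra ℚ (Perm (Fin n))) :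
    aug n (MonoidAlgebra.single σ 1 * x) = aug n x := by
  rw [map_mul, aug, MonoidAlgebra.lift_single]
  simp

lemma aug_nrm (n : ℕ) : aug n (nrm n) ≠ 0 := by
  rw [nrm, map_sum, aug]
  simp only [MonoidAlgebra.lift_single, MonoidHom.one_apply]
  simp [Fintype.card_ne_zero]

/-- equivariant maps out of the Specht module of a one-row partition are invariants -/
def rowEquiv (n : ℕ) (μ : YoungDiagram) (hμ : ∀ c ∈ μ.cells, c.1 = 0) (T : Fin n ≃ μ.cells)
    {W : Type} [AddCommGroup W] [Module ℚ W] (ρ : Perm (Fin n) → W →ₗ[ℚ] W) :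
    equivariantMaps (spechtAct T) ρ ≃ₗ[ℚ] invs ρ where
  toFun f := ⟨f.1 ⟨nrm n, (mem_specht_row n μ hμ T _).2 ⟨1, (one_smul _ _).symm⟩⟩, by
    intro σ
    rw [← f.2 σ]
    congr 1
    exact Subtype.ext (of_mul_nrm n σ)⟩
  map_add' _ _ := rfl
  map_smul' _ _ := rfl
  invFun v := ⟨(LinearMap.toSpanSingleton ℚ W ((aug n (nrm n))⁻¹ • v.1)).comp
      ((aug n).toLinearMap.comp (specht T).subtype), by
    intro σ x
    change aug n (MonoidAlgebra.single σ 1 * x.1) • ((aug n (nrm n))⁻¹ • v.1) =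
      ρ σ (aug n x.1 • ((aug n (nrm n))⁻¹ • v.1))
    rw [aug_single_mul, map_smul, map_smul, v.2 σ]⟩
  left_inv f := by
    apply Subtype.ext
    apply LinearMap.ext
    rintro ⟨x, hx⟩
    obtain ⟨r, rfl⟩ := (mem_specht_row n μ hμ T _).1 hx
    change aug n (r • nrm n) • ((aug n (nrm n))⁻¹ • f.1 ⟨nrm n, _⟩) = f.1 ⟨r • nrm n, _⟩
    rw [map_smul, smul_eq_mul, smul_smul, mul_assoc, mul_inv_cancel₀ (aug_nrm n), mul_one,
      ← map_smul]
    rfl
  right_inv v := by
    apply Subtype.ext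
    change aug n (nrm n) • ((aug n (nrm n))⁻¹ • v.1) = v.1
    rw [smul_smul, mul_inv_cancel₀ (aug_nrm n), one_smul]

lemma rowLen_bot : (⊥ : YoungDiagram).rowLen 0 = 0 := by
  by_contra h
  have : (0, 0) ∈ (⊥ : YoungDiagram) := by
    rw [YoungDiagram.mem_iff_lt_rowLen]
    omega
  exact YoungDiagram.notMem_bot _ this

lemma bot_le (n : ℕ) :
    (⊥ : YoungDiagram).rowLen 0 + (⊥ : YoungDiagram).cells.card ≤ n := by
  rw [rowLen_bot]
  simp

lemma pad_bot_cells (n : ℕ) : (pad ⊥ n (bot_le n)).cells =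
    (Finset.range n).image (fun j => ((0 : ℕ), j)) := by
  simp [pad, padCells]

lemma pad_bot_card (n : ℕ) : (pad ⊥ n (bot_le n)).cells.card = n := by
  rw [pad_bot_cells, Finset.card_image_of_injective _ (fun a b h => by simpa using h)]
  simp

lemma mult_eq (n : ℕ) : mult F₀ 0 n (pad ⊥ n (bot_le n)) = n / 2 + 1 := by
  unfold mult
  rw [dif_pos (pad_bot_card n), homDim]
  rw [(rowEquiv n _ (by
    intro c hc
    rw [pad_bot_cells] at hc
    obtain ⟨j, _, rfl⟩ := Finset.mem_image.1 hc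
    rfl) _ _).finrank_eq]
  exact finrank_invs n

/-- The sequence `⌊n/2⌋ + 1` is not eventually polynomial. -/
lemma not_poly : ¬ ∃ (P : Polynomial ℚ) (N : ℕ), ∀ n, N ≤ n →
    ((n / 2 + 1 : ℕ) : ℚ) = P.eval (n : ℚ) := by
  rintro ⟨P, N, h⟩
  -- compare with the polynomial `X/2 + 1` on even numbers
  have h1 : P = Polynomial.C (1 / 2) * Polynomial.X + Polynomial.C 1 := by
    apply Polynomial.eq_of_infinite_eval_eq
    apply Set.Infinite.mono (s := Set.range fun k : ℕ => ((2 * (N + k) : ℕ) : ℚ))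
    · rintro _ ⟨k, rfl⟩
      change P.eval _ = _
      rw [← h _ (by omega)]
      have : 2 * (N + k) / 2 = N + k := by omega
      rw [this]
      simp
    · apply Set.infinite_range_of_injective
      intro a b hab
      have : ((2 * (N + a) : ℕ) : ℚ) = ((2 * (N + b) : ℕ) : ℚ) := hab
      rw [Nat.cast_inj] at this
      omega
  have h2 := h (2 * N + 1) (by omega)
  have h3 : (2 * N + 1) / 2 = N := by omega
  rw [h3, h1] at h2
  simp at h2
  linarith

/-- **The polynomial growth conjecture is false.**  There are a finitely generated ideal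
`I = (f_1, …, f_k)` of the ring of symmetric functions, a partition `λ` and a degree `p` such that
the multiplicity of the Specht module `S^{{λ}_n}` in `H^p(V_n(I); ℚ)` coincides with no polynomial
in `n` for all large `n`.  (Proof: `I = (N_1, N_6 - 2 N_4 + N_2)`, `λ` empty and `p = 0`; the
multiplicity is `⌊n/2⌋ + 1` for every `n`, see `mult_eq`.) -/
theorem result : ∃ (k : ℕ) (f : Fin k → SymFun) (lam : YoungDiagram) (p : ℕ),
    ¬ ∃ (P : Polynomial ℚ) (N : ℕ), ∀ (n : ℕ) (h : lam.rowLen 0 + lam.cells.card ≤ n),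
      N ≤ n → (mult f p n (pad lam n h) : ℚ) = P.eval (n : ℚ) := by
  refine ⟨2, F₀, ⊥, 0, ?_⟩
  rintro ⟨P, N, hP⟩
  refine not_poly ⟨P, N, fun n hn => ?_⟩
  rw [← hP n (bot_le n) hn, mult_eq]

end Pool.Agent.Results.MP_356e41_ag.NotEventuallyPolynomial
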